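import Pool.Agent.Helper16_XQ.StmtG
import Pool.Agent.Helper55_AEU.Cgp
import Pool.Agent.Helper72_AEU.ACT

/-!
Squad XQ, module CGX: if all special bodies are matched, the polygons are congruent.
-/

set_option autoImplicit false

namespace Pool.Agent.XQ

open MeasureTheory Complex Filter Topology Pool.Agent.H62T
open Pool.Agent.H16F (Sublin)
open Pool.Agent.AEU

/-- every side contains a vertex -/
theorem exists_vxOf {P : Finset HP} (hP : Pg P) {s : HP} (hs : s ∈ P) :
    ∃ t x, VxOf P s t x := by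
  classical
  obtain ⟨x0, h0, h0'⟩ := hP.side s hs
  have hK : IsCompact (Cl P ∩ {x | ip s.1 x = s.2}) :=
    (H55.isCompact_Cl hP).inter_right (isClosed_eq (H55.continuous_ip s.1) continuous_const)
  obtain ⟨x, ⟨hx, hxs⟩, hmax⟩ := hK.exists_isMaxOn
    ⟨x0, H55.side_mem h0 h0', h0⟩ (H55.continuous_ip (I * s.1)).continuousOn
  have hxs' : ip s.1 x = s.2 := hxs
  by_contra hno
  push Not at hno
  have hlt : ∀ t ∈ P, t ≠ s → ip t.1 x < t.2 := by
    intro t ht hts
    refine lt_of_le_of_ne (hx t ht) fun he => hno t x ⟨hx, hs, ht, hts.symm, hxs', he⟩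
  -- small step along the side
  have hev : ∀ᶠ ε : ℝ in 𝓝[>] 0, ∀ t ∈ P, t ≠ s → ip t.1 (x + (ε : ℂ) * (I * s.1)) < t.2 := by
    rw [Filter.eventually_all_finset]
    intro t ht
    by_cases hts : t = s
    · exact Filter.Eventually.of_forall fun ε h => absurd hts h
    · have hc : Continuous fun ε : ℝ => ip t.1 (x + (ε : ℂ) * (I * s.1)) :=
        (H55.continuous_ip t.1).comp (by fun_prop)
      have h1 : ip t.1 (x + ((0 : ℝ) : ℂ) * (I * s.1)) < t.2 := by
        simpa using hlt t ht hts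
      filter_upwards [mem_nhdsWithin_of_mem_nhds (hc.continuousAt.eventually_lt_const h1)]
        with ε hε _ using hε
  obtain ⟨ε, hε, hε0⟩ := (hev.and self_mem_nhdsWithin).exists
  have hε0' : (0 : ℝ) < ε := hε0
  have hu : s.1.re ^ 2 + s.1.im ^ 2 = 1 := by
    have := hP.unit s hs
    have h2 := Complex.sq_norm s.1
    rw [this, normSq_apply] at h2
    nlinarith
  have hon : ip s.1 (x + (ε : ℂ) * (I * s.1)) = s.2 := by
    rw [H55.ip_add, H55.ip_mul_ofReal, hxs']
    simp only [ip, mul_re, mul_im, I_re, I_im]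
    ring
  have hcl : x + (ε : ℂ) * (I * s.1) ∈ Cl P := by
    intro t ht
    by_cases hts : t = s
    · rw [hts, hon]
    · exact (hε t ht hts).le
  have h3 := hmax (show x + (ε : ℂ) * (I * s.1) ∈ Cl P ∩ {x | ip s.1 x = s.2} from ⟨hcl, hon⟩)
  have h4 : ip (I * s.1) (x + (ε : ℂ) * (I * s.1)) ≤ ip (I * s.1) x := h3
  rw [H55.ip_add, H55.ip_mul_ofReal] at h4
  have h5 : ip (I * s.1) (I * s.1) = 1 := by
    simp only [ip, mul_re, mul_im, I_re, I_im]
    nlinarith
  rw [h5] at h4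
  linarith

theorem cgx : CgxStatement := by
  obtain ⟨a1, a2, -, -, -, a6, a7, -⟩ := H72.act
  intro P Q hP hQ hall
  obtain ⟨h, hs, hf, ht, hin⟩ := H55.exists_body hP
  have hsp : (∃ v, Vx P v ∧ In v h) := by
    obtain ⟨s, hsP⟩ : P.Nonempty := Finset.card_pos.1 (lt_of_lt_of_le (by norm_num) hP.card)
    obtain ⟨t, x, hx⟩ := exists_vxOf hP hsP
    exact ⟨x, ⟨s, t, hx⟩, hin x hx.cl⟩
  obtain ⟨g, hg⟩ := hall h ⟨hs, hf, by rw [ht]; exact hP.card, Or.inl hsp⟩
  refine ⟨g, ?_⟩
  have hmem : ∀ s ∈ P, mv g s ∈ Q := fun s hs => hg.mem s (by rw [ht]; exact hs)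
  ext t
  rw [Finset.mem_image]
  constructor
  · rintro ⟨s, hs, rfl⟩
    exact hmem s hs
  · intro htQ
    obtain ⟨y, hy, hy'⟩ := hQ.side t htQ
    have hyQ : y ∈ Cl Q := H55.side_mem hy hy'
    set x : ℂ := g.symm y with hx
    have hgx : g x = y := g.apply_symm_apply y
    have hxP : x ∈ Cl P := by
      intro s hs
      have h1 := hyQ (mv g s) (hmem s hs)
      have h2 := a6 g x s
      rw [hgx] at h2
      linarith
    have h3 : In y (mb g h) := by
      rw [← hgx, a7]
      exact hin x hxP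
    have h4 : t ∈ touch Q (mb g h) := by
      rw [touch, Finset.mem_filter]
      refine ⟨htQ, le_antisymm (hg.fits' t htQ) ?_⟩
      have := h3 t.1
      rwa [hy] at this
    refine ⟨mv g⁻¹ t, hg.mem' t h4, ?_⟩
    rw [← a1, mul_inv_cancel, a2]

end Pool.Agent.XQ
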