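import Pool.Agent.Helper16_XQ.StmtG
import Pool.Agent.Helper20_AEU.Lev
import Pool.Agent.Helper69_AEU.Lam
import Pool.Agent.Helper69_AEU.Tools

/-!
Squad XQ, module LVX: the first level at which the polygons disagree.
-/

set_option autoImplicit false

namespace Pool.Agent.XQ

open MeasureTheory Complex Filter Topology Pool.Agent.H62T
open Pool.Agent.H16F (Sublin)
open Pool.Agent.AEU
open Pool.Agent.AEU.H20 (HasLeast)

/-- a body which touches three sides is not a point -/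
theorem lam_pos_of_three (vxx : VxxStatement) {P : Finset HP} (hP : Pg P) {h : ℂ → ℝ}
    (hs : Sublin h) (hF : Fits P h) (h3 : 3 ≤ (touch P h).card) : 0 < lam h := by
  by_contra hneg
  obtain ⟨l1, l2, _, _⟩ := H69.lamS
  obtain ⟨x, hx, _⟩ := (H69.sup h hs).2.2.2 0
  have hp := H20.sublin_point x
  have e0 : lam (fun w => ip w x) = 0 := by
    have := l1 _ _ hp hp 0 0 x
    simpa using this
  have e1 : (fun w => ip w x) = h :=
    (l2 _ _ hp hs hx).2 (by rw [e0]; exact not_lt.1 hneg)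
  obtain ⟨v1, _, _, _, _, _, v7, _⟩ := vxx P hP
  have hxc : x ∈ Cl P := v7 h hF x hx
  have hon : ∀ s ∈ touch P h, s ∈ P ∧ ip s.1 x = s.2 := by
    intro s hs'
    rw [H20.mem_touch] at hs'
    refine ⟨hs'.1, ?_⟩
    rw [← hs'.2, ← e1]
  obtain ⟨a, b, c, ha, hb, hc, hab, hac, hbc⟩ := Finset.two_lt_card_iff.1 (by omega :
    2 < (touch P h).card)
  have hv : VxOf P a b x := ⟨hxc, (hon a ha).1, (hon b hb).1, hab, (hon a ha).2, (hon b hb).2⟩
  rcases v1 a b x hv c (hon c hc).1 (hon c hc).2 with h1 | h1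
  · exact hac h1.symm
  · exact hbc h1.symm

/-- lengths of the unmatched special bodies -/
def lvU (P Q : Finset HP) : Set ℝ :=
  {l | ∃ h, (Special P h ∧ ¬ ∃ g, Mat P Q g h) ∧ lam h = l}

/-- lengths of the bodies with two placements -/
def lvW (P Q : Finset HP) : Set ℝ :=
  {l | ∃ g g' S h, (WP P Q g S h ∧ WP P Q g' S h ∧ g ≠ g') ∧ lam h = l}

/-- lengths at which the numbers of the ghosts are different -/
def lvG (P Q : Finset HP) : Set ℝ := {l | gc P l ≠ gc Q l}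

theorem ghost_of_gc {X : Finset HP} {l : ℝ} (h : gc X l ≠ 0) :
    ∃ S ∈ X.powersetCard 3, Ghost X S ∧ ell S = l := by
  classical
  obtain ⟨S, hS⟩ := Finset.card_pos.1 (Nat.pos_of_ne_zero h)
  rw [Finset.mem_filter] at hS
  exact ⟨S, hS⟩

theorem hasLeast_lvU (atx : AtxStatement) {P Q : Finset HP} (hP : Pg P) (hQ : Pg Q) :
    HasLeast (lvU P Q) := by
  rintro ⟨l, h, hu, _⟩
  obtain ⟨h₀, hu₀, hmin⟩ := atx P Q hP hQ ⟨h, hu⟩
  refine ⟨lam h₀, ⟨h₀, hu₀, rfl⟩, ?_⟩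
  rintro b ⟨h', hu', rfl⟩
  exact hmin h' hu'

theorem hasLeast_lvW (utt : UttStatement) {P Q : Finset HP} (hP : Pg P) (hQ : Pg Q) :
    HasLeast (lvW P Q) := by
  rintro ⟨l, g, g', S, h, hu, _⟩
  obtain ⟨g₀, g₀', S₀, h₀, hu₀, hmin⟩ := utt P Q hP hQ ⟨g, g', S, h, hu⟩
  refine ⟨lam h₀, ⟨g₀, g₀', S₀, h₀, hu₀, rfl⟩, ?_⟩
  rintro b ⟨k, k', S', h', hu', rfl⟩
  exact hmin k k' S' h' hu'

theorem hasLeast_lvG (P Q : Finset HP) : HasLeast (lvG P Q) := by
  classical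
  intro hne
  have hfin : (lvG P Q).Finite := by
    refine Set.Finite.subset (((P.powersetCard 3).image ell ∪
      (Q.powersetCard 3).image ell).finite_toSet) ?_
    intro l hl
    have hl' : gc P l ≠ gc Q l := hl
    rw [Finset.mem_coe, Finset.mem_union, Finset.mem_image, Finset.mem_image]
    by_cases h0 : gc P l = 0
    · have h1 : gc Q l ≠ 0 := fun h => hl' (h0.trans h.symm)
      obtain ⟨S, hS, _, hSl⟩ := ghost_of_gc h1
      exact Or.inr ⟨S, hS, hSl⟩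
    · obtain ⟨S, hS, _, hSl⟩ := ghost_of_gc h0
      exact Or.inl ⟨S, hS, hSl⟩
  obtain ⟨a, ha, hmin⟩ := hfin.exists_minimalFor id _ hne
  refine ⟨a, ha, fun b hb => ?_⟩
  rcases le_total a b with h | h
  · exact h
  · exact hmin hb h

theorem lvx (vxx : VxxStatement) (ghx : GhxStatement) (atx : AtxStatement) (utt : UttStatement)
    (cgx : CgxStatement) : LvxStatement := by
  intro P Q hG hQ hnc
  have hP := hG.gen.pg
  have hleast := ((hasLeast_lvU atx hP hQ).union (hasLeast_lvU atx hQ hP)).union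
    ((hasLeast_lvW utt hP hQ).union (hasLeast_lvG P Q))
  have hne : ((lvU P Q ∪ lvU Q P) ∪ (lvW P Q ∪ lvG P Q)).Nonempty := by
    by_contra hemp
    refine hnc (cgx P Q hP hQ fun h hsp => ?_)
    by_contra hn
    exact hemp ⟨lam h, Or.inl (Or.inl ⟨h, ⟨hsp, hn⟩, rfl⟩)⟩
  obtain ⟨L, hL, hmin⟩ := hleast hne
  have pu : ∀ {P Q : Finset HP}, Pg P → ∀ l ∈ lvU P Q, 0 < l := by
    rintro P Q hP l ⟨h, hu, rfl⟩
    exact lam_pos_of_three vxx hP hu.1.sub hu.1.fits hu.1.three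
  have pw : ∀ l ∈ lvW P Q, 0 < l := by
    rintro l ⟨g, g', S, h, ⟨hw, _, _⟩, rfl⟩
    exact lam_pos_of_three vxx hP hw.sub hw.fits (by
      rw [← hw.card]
      exact Finset.card_le_card hw.tch)
  have pg : ∀ l ∈ lvG P Q, 0 < l := by
    intro l hl
    have hl' : gc P l ≠ gc Q l := hl
    by_cases h0 : gc P l = 0
    · have h1 : gc Q l ≠ 0 := fun h => hl' (h0.trans h.symm)
      obtain ⟨S, hS, hgh, hSl⟩ := ghost_of_gc h1
      rw [← hSl]
      exact (ghx Q hQ S hgh).2.2.1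
    · obtain ⟨S, hS, hgh, hSl⟩ := ghost_of_gc h0
      rw [← hSl]
      exact (ghx P hP S hgh).2.2.1
  have allM : ∀ {P Q : Finset HP}, (∀ l ∈ lvU P Q, L ≤ l) → AllM P Q L := by
    intro P Q H h hsp hlt
    by_contra hn
    have := H (lam h) ⟨h, ⟨hsp, hn⟩, rfl⟩
    linarith
  refine ⟨L, ?_, ⟨allM fun l hl => hmin l (Or.inl (Or.inl hl)),
    allM fun l hl => hmin l (Or.inl (Or.inr hl)), ?_, ?_⟩, ?_⟩
  · rcases hL with (hL | hL) | (hL | hL)
    · exact pu hP L hL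
    · exact pu hQ L hL
    · exact pw L hL
    · exact pg L hL
  · intro g g' S h hw hw' hlt
    by_contra hn
    have := hmin (lam h) (Or.inr (Or.inl ⟨g, g', S, h, ⟨hw, hw', hn⟩, rfl⟩))
    linarith
  · intro l hlt
    by_contra hn
    have := hmin l (Or.inr (Or.inr hn))
    linarith
  · intro hle
    rcases hL with (hL | hL) | (hL | hL)
    · obtain ⟨h, ⟨hsp, hn⟩, hl⟩ := hL
      exact hn (hle.m1 h hsp hl.le)
    · obtain ⟨h, ⟨hsp, hn⟩, hl⟩ := hL
      exact hn (hle.m2 h hsp hl.le)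
    · obtain ⟨g, g', S, h, ⟨hw, hw', hn⟩, hl⟩ := hL
      exact hn (hle.uq g g' S h hw hw' hl.le)
    · exact hL (hle.gh L le_rfl)

end Pool.Agent.XQ
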