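import Pool.Agent.Helper36_XQ.Stmt5
import Pool.Agent.Helper60_AEU.Asm

/-!
Squad XQ, module E4_ASA: the mass of the loops is twice the sum of the fluxes (helper60).
-/

set_option autoImplicit false

namespace Pool.Agent.XQ.K4.H60

open MeasureTheory Complex Filter Topology ProbabilityTheory Pool.Agent.H16Iso Pool.Agent.H62T
  Pool.Agent.H16F Pool.Agent.H38KL Pool.Agent.AEU Pool.Agent.XQ.K4
open scoped ENNReal NNReal

open H60K (Q Q_le Q_nonneg Q_add Q_mul)

variable {u : Fin 4 → ℂ} {h : Fin 4 → ℝ} {O E : Finset (Fin 4)} {C W : Set ℂ} {l δ R : ℝ}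

lemma sum_rot {n : ℕ} [NeZero n] (τ : Fin n → ℝ) (j : Fin n) : ∑ i, rot j τ i = ∑ i, τ i :=
  Equiv.sum_comp (Equiv.addRight j) τ

lemma sum_rvt {n : ℕ} [NeZero n] (f : Fin n → ℝ) : ∑ i, f (-(i + 1)) = ∑ i, f i :=
  Equiv.sum_comp ((Equiv.addRight (1 : Fin n)).trans (Equiv.neg (Fin n))) f

lemma meas_const_and {n : ℕ} {p : Prop} {T : Set (Fin n → ℂ)} (hT : MeasurableSet T) :
    MeasurableSet {x : Fin n → ℂ | p ∧ x ∈ T} := by
  by_cases hp : p
  · simpa [hp] using hT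
  · simp [hp]

lemma meas_Ada {n : ℕ} [NeZero n] (hC : MeasurableSet C) (A : Fin n → Finset (Fin 4)) :
    MeasurableSet {x : Fin n → ℂ | Ada C x A} := by
  have hm : ∀ j : Fin n, MeasurableSet {x : Fin n → ℂ | x j ∈ C} := fun j =>
    (measurable_pi_apply j) hC
  have hm' : ∀ j : Fin n, MeasurableSet {x : Fin n → ℂ | x j ∉ C} := fun j => (hm j).compl
  have h1 : MeasurableSet {x : Fin n → ℂ | ∀ j, 2 ∈ A j → x j ∉ C ∧ x (j + 1) ∉ C} := by
    rw [Set.ofPred_forall]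
    refine MeasurableSet.iInter fun j => ?_
    by_cases h : (2 : Fin 4) ∈ A j
    · simp only [h, true_imp_iff]
      exact (hm' j).inter (hm' (j + 1))
    · simp [h]
  have h2 : MeasurableSet {x : Fin n → ℂ | ∀ j, 3 ∈ A j → x j ∈ C ∧ x (j + 1) ∈ C} := by
    rw [Set.ofPred_forall]
    refine MeasurableSet.iInter fun j => ?_
    by_cases h : (3 : Fin 4) ∈ A j
    · simp only [h, true_imp_iff]
      exact (hm j).inter (hm (j + 1))
    · simp [h]
  exact h1.inter h2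

lemma measurable_chi (hC : MeasurableSet C) : Measurable (chi C) :=
  measurable_const.indicator hC

lemma meas_chi_ne {n : ℕ} [NeZero n] (hC : MeasurableSet C) :
    MeasurableSet {x : Fin n → ℂ | chi C (x 0) ≠ chi C (x 1)} := by
  have h : MeasurableSet {x : Fin n → ℂ | chi C (x 0) = chi C (x 1)} :=
    measurableSet_eq_fun ((measurable_chi hC).comp (measurable_pi_apply 0))
      ((measurable_chi hC).comp (measurable_pi_apply 1))
  exact h.compl

lemma meas_W2 {n : ℕ} [NeZero n] (hW : MeasurableSet W) :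
    MeasurableSet {x : Fin n → ℂ | x 0 ∈ W ∧ x 1 ∈ W} := by
  have h0 : MeasurableSet ((fun x : Fin n → ℂ => x 0) ⁻¹' W) := (measurable_pi_apply 0) hW
  have h1 : MeasurableSet ((fun x : Fin n → ℂ => x 1) ⁻¹' W) := (measurable_pi_apply 1) hW
  exact h0.inter h1

lemma Ln_nonneg {n : ℕ} [NeZero n] (x : Fin n → ℂ) (A : Fin n → Finset (Fin 4)) :
    0 ≤ Ln u h x A := Finset.sum_nonneg fun j _ => bl_nonneg u h (A j) _ _

lemma vis_of_F4 {n : ℕ} [NeZero n] {A : Fin n → Finset (Fin 4)} (hF : F4 O A)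
    (hD : ∀ j, Disjoint (A j) E) : Vis (O ∪ {2, 3}) E A := by
  obtain ⟨a, b, -, -, -, h3, h2, hs⟩ := hF
  refine ⟨fun s hs' => ?_, hD⟩
  rw [Finset.mem_union, Finset.mem_insert, Finset.mem_singleton] at hs'
  rcases hs' with hs' | rfl | rfl
  · obtain ⟨l, -, -, hl⟩ := hs s hs'
    exact ⟨_, hl⟩
  · exact ⟨_, h2⟩
  · exact ⟨_, h3⟩

/-- module ASA -/
theorem asa (hBLC : Blc4Statement) (hREF : Ref4Statement) (hLDV : LdvStatement) :
    AsaStatement := by
  intro u h O E C W l δ R ε g hε n _ hn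
  have hu := g.hu
  have hδ := g.hδ
  have hl := g.hl
  have hR := g.hR
  have hC := g.hC
  have hW := g.hW
  -- the mass of all loops
  obtain ⟨C0, p0, hV0⟩ := ldm u h hu n (fun _ A => Vis (O ∪ {2, 3}) E A) δ (min l (1 / R)) R ε
    (fun A => MeasurableSet.const _) hδ (by positivity) hR hε
    (fun x A hS hCn _ => (min_le_right _ _).trans (g.loc n x A hS hCn).2)
    (fun x A hS hCn => (g.loc n x A hS hCn).1)
  -- the bad set of BLC
  obtain ⟨C1, p1, h1⟩ := ldm u h hu n (fun x A => Vis (O ∪ {2, 3}) E A ∧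
      ¬ (Ada C x A ∧ (Cl3 3 2 O A ∨ Cl3 2 3 O A))) δ l R ε (fun A => by
        have h2 : MeasurableSet {x : Fin n → ℂ | ¬ (Ada C x A ∧
            (Cl3 3 2 O A ∨ Cl3 2 3 O A))} := by
          have h3 := (meas_const_and (n := n) (p := (Cl3 3 2 O A ∨ Cl3 2 3 O A))
            (meas_Ada hC A)).compl
          refine h3.congr ?_
          ext x
          simp only [Set.mem_compl_iff, Set.mem_ofPred_eq]
          tauto
        exact meas_const_and h2) hδ hl hR hε
    (fun x A hS hCn hSh => by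
      by_contra hcon
      push Not at hcon
      obtain ⟨ha, hb, -⟩ := g.g1 n x A hn hS.1 hCn hSh hcon
      exact hS.2 ⟨ha, hb⟩)
    (fun x A hS hCn => (g.loc n x A hS.1 hCn).1)
  -- the first bad set of REF
  obtain ⟨C2, p2, h2⟩ := ldm u h hu n (fun x A => F4 O A ∧ (∀ j, Disjoint (A j) E) ∧
      chi C (x 0) ≠ chi C (x 1) ∧ ¬ (x 0 ∈ W ∧ x 1 ∈ W)) δ l R ε (fun A => by
        have h3 := (meas_chi_ne (n := n) hC).inter (meas_W2 (n := n) hW).compl
        have h4 := meas_const_and (p := F4 O A ∧ ∀ j, Disjoint (A j) E) h3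
        refine h4.congr ?_
        ext x
        simp only [Set.mem_inter_iff, Set.mem_compl_iff, Set.mem_ofPred_eq]
        tauto) hδ hl hR hε
    (fun x A hS hCn hSh => by
      by_contra hcon
      push Not at hcon
      obtain ⟨-, -, hc⟩ := g.g1 n x A hn (vis_of_F4 hS.1 hS.2.1) hCn hSh hcon
      exact hS.2.2.2 (hc hS.1 hS.2.2.1))
    (fun x A hS hCn => (g.loc n x A (vis_of_F4 hS.1 hS.2.1) hCn).1)
  -- the second bad set of REF
  obtain ⟨C3, p3, h3⟩ := ldm u h hu n (fun x A => B1 O E A ∧ x 0 ∈ W ∧ x 1 ∈ W) δ l R ε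
    (fun A => meas_const_and (meas_W2 (n := n) hW)) hδ hl hR hε
    (fun x A hS hCn hSh => g.g2 n x A hn hS.1 hCn hSh hS.2.1 hS.2.2)
    (fun x A hS hCn => by
      have h4 := g.hWR _ hS.2.1
      have h5 := Ln_nonneg (u := u) (h := h) x A
      nlinarith)
  -- the third bad set of REF
  obtain ⟨C4, p4, h4⟩ := hLDV u h hu n hn (fun x A => B2 O E A ∧ x 0 ∈ W ∧ x 1 ∈ W) δ l R ε
    (fun A => meas_const_and (meas_W2 (n := n) hW)) hδ hl hR hε
    (fun x A hS hA hCn hSh => g.g3 n x A hn hA hS.1 hCn hSh hS.2.1 hS.2.2)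
    (fun x A hS => g.hWR _ hS.2.1)
  -- constants
  set p : ℕ := p1 + p2 + p3 + p4 with hp
  set D : ℝ := |C1| + |C2| + |C3| + |C4| with hD
  have hD0 : 0 ≤ D := by positivity
  refine ⟨(2 * n + 1) * D + 2 * (n * (D + D + D)), p, by positivity, fun τ hτ hmesh => ?_⟩
  set t : ℝ := ∑ i, τ i with ht
  have ht0 : 0 < t := Finset.sum_pos (fun i _ => hτ i) ⟨0, Finset.mem_univ _⟩
  set m : ℝ := (1 - ε) * l ^ 2 with hm
  have hQ : ∀ (C : ℝ) (q : ℕ), C ≤ D → q ≤ p →
      C * (1 + t) ^ q / t * Real.exp (-((1 - ε) * l ^ 2 / (4 * t))) ≤ Q D p m t :=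
    fun C q hC hq => Q_le (m := m) ht0 hC hD0 hq
  have hQ0 : 0 ≤ Q D p m t := Q_nonneg ht0 hD0
  have a1 := abs_nonneg C1
  have a2 := abs_nonneg C2
  have a3 := abs_nonneg C3
  have a4 := abs_nonneg C4
  have hC1 : C1 ≤ D := by
    have := le_abs_self C1
    linarith
  have hC2 : C2 ≤ D := by
    have := le_abs_self C2
    linarith
  have hC3 : C3 ≤ D := by
    have := le_abs_self C3
    linarith
  have hC4 : C4 ≤ D := by
    have := le_abs_self C4
    linarith
  -- finiteness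
  have hmin : 0 < min l (1 / R) := by positivity
  have hmesh0 : ∀ j, τ j * (min l (1 / R)) ^ 2 ≤ δ ^ 2 * ∑ i, τ i := by
    intro j
    refine le_trans ?_ (hmesh j)
    have h6 : min l (1 / R) ≤ l := min_le_left _ _
    have := hτ j
    gcongr
  have hfin : Ms u h τ (fun _ A => Vis (O ∪ {2, 3}) E A) ≠ ⊤ :=
    ne_top_of_le_ne_top ENNReal.ofReal_ne_top (hV0 τ hτ hmesh0)
  have hb1 := hBLC u h n τ O E C hu (by omega) hτ g.hOn g.hO g.hE hC hfin
  have hb1' : |(Vt u h (O ∪ {2, 3}) E t).toReal - ∑ j : Fin n, TC4 u h (rot j τ) O E C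
      - ∑ j : Fin n, TC4 u h (rot j (rvt τ)) O E C| ≤ (2 * n + 1) * Q D p m t := by
    refine hb1.trans ?_
    have h5 : (Ms u h τ (fun x A => Vis (O ∪ {2, 3}) E A ∧
        ¬ (Ada C x A ∧ (Cl3 3 2 O A ∨ Cl3 2 3 O A)))).toReal ≤ Q D p m t := by
      refine ENNReal.toReal_le_of_le_ofReal hQ0 ((h1 τ hτ hmesh).trans ?_)
      exact ENNReal.ofReal_le_ofReal (hQ C1 p1 hC1 (by omega))
    gcongr
  -- REF for arbitrary durations with the same sum and mesh
  have key : ∀ σ : Fin n → ℝ, (∀ j, 0 < σ j) → ∑ i, σ i = t →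
      (∀ j, σ j * l ^ 2 ≤ δ ^ 2 * t) →
      |TC4 u h σ O E C - TTG u h O E C W (σ 0) t| ≤ Q (D + D + D) p m t := by
    intro σ hσ hs hmeshσ
    have hmesh' : ∀ i, σ i * l ^ 2 ≤ δ ^ 2 * ∑ i, σ i := by
      intro i
      rw [hs]
      exact hmeshσ i
    have hmesh0' : ∀ i, σ i * (min l (1 / R)) ^ 2 ≤ δ ^ 2 * ∑ i, σ i := by
      intro i
      refine le_trans ?_ (hmesh' i)
      have h6 : min l (1 / R) ≤ l := min_le_left _ _
      have := hσ i
      gcongr
    have hfin' : Ms u h σ (fun _ A => Vis (O ∪ {2, 3}) E A) ≠ ⊤ :=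
      ne_top_of_le_ne_top ENNReal.ofReal_ne_top (hV0 _ hσ hmesh0')
    have h5 := hREF u h n σ O E C W R hu hn hσ g.hOn g.hO g.hE g.hOE hC hW g.hWR g.hWi hfin'
    have e2 := h2 _ hσ hmesh'
    have e3 := h3 _ hσ hmesh'
    have e4 := h4 _ hσ hmesh'
    simp only [hs] at h5 e2 e3 e4
    have h6 := h5.trans (add_le_add (add_le_add
      (e2.trans (ENNReal.ofReal_le_ofReal (hQ C2 p2 hC2 (by omega))))
      (e3.trans (ENNReal.ofReal_le_ofReal (hQ C3 p3 hC3 (by omega)))))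
      (e4.trans (ENNReal.ofReal_le_ofReal (hQ C4 p4 hC4 (by omega)))))
    rw [← ENNReal.ofReal_add hQ0 hQ0, ← ENNReal.ofReal_add (by positivity) hQ0,
      ENNReal.ofReal_le_ofReal_iff (by positivity)] at h6
    rwa [Q_add, Q_add] at h6
  have hb2 : ∀ j : Fin n, |TC4 u h (rot j τ) O E C - TTG u h O E C W (τ j) t|
      ≤ Q (D + D + D) p m t := by
    intro j
    have h5 := key (rot j τ) (fun i => hτ _) (sum_rot τ j) (fun i => hmesh _)
    have h6 : rot j τ 0 = τ j := by simp [rot]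
    rwa [h6] at h5
  have hb2' : ∀ j : Fin n, |TC4 u h (rot j (rvt τ)) O E C - TTG u h O E C W (τ (-(j + 1))) t|
      ≤ Q (D + D + D) p m t := by
    intro j
    have h5 := key (rot j (rvt τ)) (fun i => hτ _) (by rw [sum_rot]; exact sum_rvt τ)
      (fun i => hmesh _)
    have h6 : rot j (rvt τ) 0 = τ (-(j + 1)) := by simp [rot, rvt]
    rwa [h6] at h5
  have hb3 : |∑ j : Fin n, TC4 u h (rot j τ) O E C - ∑ j, TTG u h O E C W (τ j) t|
      ≤ n * Q (D + D + D) p m t := by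
    rw [← Finset.sum_sub_distrib]
    refine (Finset.abs_sum_le_sum_abs _ _).trans ?_
    refine (Finset.sum_le_sum fun j _ => hb2 j).trans ?_
    simp
  have hb3' : |∑ j : Fin n, TC4 u h (rot j (rvt τ)) O E C - ∑ j, TTG u h O E C W (τ j) t|
      ≤ n * Q (D + D + D) p m t := by
    rw [← sum_rvt (fun j => TTG u h O E C W (τ j) t), ← Finset.sum_sub_distrib]
    refine (Finset.abs_sum_le_sum_abs _ _).trans ?_
    refine (Finset.sum_le_sum fun j _ => hb2' j).trans ?_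
    simp
  rw [Q_mul] at hb1' hb3 hb3'
  have h7 := add_le_add hb1' (add_le_add hb3 hb3')
  rw [Q_add, Q_add] at h7
  have h8 : Q ((2 * n + 1) * D + (n * (D + D + D) + n * (D + D + D))) p m t
      = ((2 * n + 1) * D + 2 * (n * (D + D + D))) * (1 + t) ^ p / t
        * Real.exp (-((1 - ε) * l ^ 2 / (4 * t))) := by
    unfold Q
    ring
  rw [h8] at h7
  refine le_trans ?_ h7
  set V := (Vt u h (O ∪ {2, 3}) E t).toReal
  set S1 := ∑ j : Fin n, TC4 u h (rot j τ) O E C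
  set S2 := ∑ j : Fin n, TC4 u h (rot j (rvt τ)) O E C
  set S3 := ∑ j, TTG u h O E C W (τ j) t
  have e : V - 2 * S3 = (V - S1 - S2) + ((S1 - S3) + (S2 - S3)) := by ring
  rw [e]
  exact (abs_add_le _ _).trans (add_le_add le_rfl (abs_add_le _ _))

end Pool.Agent.XQ.K4.H60
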