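import Pool.Agent.Helper36_XQ.Stmt5
import Pool.Agent.Helper60_AEU.Asm2

/-!
Squad XQ, module E4_ASM: from blocks to the Laplace transform (helper60).
-/

set_option autoImplicit false

namespace Pool.Agent.XQ.K4.H60

open MeasureTheory Complex Filter Topology ProbabilityTheory Pool.Agent.H16Iso Pool.Agent.H62T
  Pool.Agent.H16F Pool.Agent.H38KL Pool.Agent.AEU Pool.Agent.XQ.K4
open scoped ENNReal NNReal

open H60K (Q Q_le Q_nonneg Q_add Q_mul absorb Q_absorb measurable_G_comp)

variable {u : Fin 4 → ℂ} {h : Fin 4 → ℝ} {O E : Finset (Fin 4)} {C W : Set ℂ} {l δ R : ℝ}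

lemma measurable_chi' (hC : MeasurableSet C) : Measurable (chi C) :=
  measurable_const.indicator hC

lemma kME_nonneg (M E : Finset (Fin 4)) {t : ℝ} (ht : 0 < t) (x y : ℂ) :
    0 ≤ kME u h M E t x y := by
  rw [kME_eq]
  exact Finset.sum_nonneg fun A _ => kA_nonneg u h ht x y A

lemma kME_le (M E : Finset (Fin 4)) {t : ℝ} (ht : 0 < t) (x y : ℂ) :
    kME u h M E t x y ≤ G t (x - y) := by
  rw [kME_eq]
  have h1 := pB_eq u h ∅ t x y
  have h2 : pB u h ∅ t x y = G t (x - y) := by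
    unfold pB
    have : Dm u h ∅ = Set.univ := by
      ext x
      simp [Dm]
    rw [this]
    exact H60K.H44.uni t x y ht
  rw [h2] at h1
  rw [h1]
  refine Finset.sum_le_sum_of_subset_of_nonneg (fun A _ => ?_)
    fun A _ _ => kA_nonneg u h ht x y A
  simp

lemma kME_meas (M E : Finset (Fin 4)) :
    Measurable (fun p : ℝ × ℂ × ℂ => kME u h M E p.1 p.2.1 p.2.2) := by
  have : (fun p : ℝ × ℂ × ℂ => kME u h M E p.1 p.2.1 p.2.2)
      = fun p : ℝ × ℂ × ℂ => ∑ A ∈ (Eᶜ).powerset.filter (fun A => M ⊆ A),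
        kA u h A p.1 p.2.1 p.2.2 := by
    funext p
    exact kME_eq u h p.1 p.2.1 p.2.2
  rw [this]
  exact Finset.measurable_fun_sum _ fun A _ => kA_meas u h A

lemma kME_meas_comp (M E : Finset (Fin 4)) {α : Type*} [MeasurableSpace α] {f : α → ℝ}
    {g k : α → ℂ} (hf : Measurable f) (hg : Measurable g) (hk : Measurable k) :
    Measurable (fun a => kME u h M E (f a) (g a) (k a)) := by
  have h3 := (kME_meas (u := u) (h := h) M E).comp (hf.prodMk (hg.prodMk hk))
  simpa only [Function.comp_def] using h3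

lemma measurable_Vt (M E : Finset (Fin 4)) : Measurable (Vt u h M E) := by
  unfold Vt
  have h1 : Measurable (fun p : ℝ × ℂ => ENNReal.ofReal (kME u h M E p.1 p.2 p.2)) :=
    ENNReal.measurable_ofReal.comp (kME_meas_comp M E measurable_fst measurable_snd
      measurable_snd)
  exact h1.lintegral_prod_right'

lemma abs_chi_sub (x y : ℂ) : |chi C y - chi C x| ≤ 1 := by
  unfold chi Set.indicator
  split_ifs <;> simp

lemma measurable_TTG (O E : Finset (Fin 4)) (hC : MeasurableSet C) :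
    Measurable (fun p : ℝ × ℝ => TTG u h O E C W p.1 p.2) := by
  have h1 : Measurable (fun q : ((ℝ × ℝ) × ℂ) × ℂ => G q.1.1.1 (q.1.2 - q.2)
      * (chi C q.2 - chi C q.1.2)
      * kME u h O E (q.1.1.2 - q.1.1.1) (rf u h 3 q.2) (rf u h 2 q.1.2)) := by
    have f1 : Measurable (fun q : ((ℝ × ℝ) × ℂ) × ℂ => G q.1.1.1 (q.1.2 - q.2)) :=
      measurable_G_comp (by fun_prop) (by fun_prop)
    have f2 : Measurable (fun q : ((ℝ × ℝ) × ℂ) × ℂ => chi C q.2) :=
      (measurable_chi' hC).comp (by fun_prop)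
    have f3 : Measurable (fun q : ((ℝ × ℝ) × ℂ) × ℂ => chi C q.1.2) :=
      (measurable_chi' hC).comp (by fun_prop)
    refine (f1.mul (f2.sub f3)).mul ?_
    exact kME_meas_comp O E (by fun_prop) (measurable_rf_comp _ _ _ (by fun_prop))
      (measurable_rf_comp _ _ _ (by fun_prop))
  have h4 := (h1.stronglyMeasurable.integral_prod_right' (ν := volume.restrict W))
  exact (h4.integral_prod_right' (ν := volume.restrict W)).measurable

/-- bound of the flux -/
lemma TTG_bound (g : Geo4 u h O E C W l δ R) :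
    ∃ D : ℝ, 0 ≤ D ∧ ∀ a t : ℝ, 0 < a → a < t →
      |TTG u h O E C W a t| ≤ D * (Real.exp (-(δ ^ 2 / (4 * (t - a)))) / (t - a)) := by
  have hδ := g.hδ
  have hWf : volume W < ⊤ := by
    have h : W ⊆ Metric.closedBall 0 R := by
      intro x hx
      rw [mem_closedBall_zero_iff]
      exact g.hWR x hx
    exact lt_of_le_of_lt (measure_mono h) measure_closedBall_lt_top
  set v : ℝ := (volume W).toReal with hv
  refine ⟨1 / (4 * Real.pi) * v, by positivity, fun a t ha hat => ?_⟩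
  have hs : 0 < t - a := by linarith
  set B : ℝ := 1 / (4 * Real.pi) * (Real.exp (-(δ ^ 2 / (4 * (t - a)))) / (t - a)) with hB
  have hB0 : 0 ≤ B := by positivity
  have h1 : ∀ x ∈ W, ∀ y ∈ W,
      |G a (x - y) * (chi C y - chi C x)
        * kME u h O E (t - a) (rf u h 3 y) (rf u h 2 x)| ≤ G a (x - y) * B := by
    intro x hx y hy
    have h2 := kME_le (u := u) (h := h) O E hs (rf u h 3 y) (rf u h 2 x)
    have h3 := kME_nonneg (u := u) (h := h) O E hs (rf u h 3 y) (rf u h 2 x)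
    have h4 := H60K.G_le_of_dist hs hδ.le (g.hWd x hx y hy)
    have h5 : 0 ≤ G a (x - y) := (H8.G_pos ha _).le
    rw [abs_mul, abs_mul, abs_of_nonneg h5, abs_of_nonneg h3]
    have h7 : Real.exp (-(δ ^ 2 / (4 * (t - a)))) / (4 * Real.pi * (t - a)) = B := by
      rw [hB]; field_simp
    rw [h7] at h4
    calc G a (x - y) * |chi C y - chi C x| * kME u h O E (t - a) (rf u h 3 y) (rf u h 2 x)
        ≤ G a (x - y) * 1 * G (t - a) (rf u h 3 y - rf u h 2 x) := by
          gcongr
          exact abs_chi_sub _ _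
      _ ≤ G a (x - y) * 1 * B := by gcongr
      _ = G a (x - y) * B := by ring
  have h8 : ∀ x ∈ W, ‖∫ y in W, G a (x - y) * (chi C y - chi C x)
        * kME u h O E (t - a) (rf u h 3 y) (rf u h 2 x)‖ ≤ B := by
    intro x hx
    have h9 : Integrable (fun y => G a (x - y) * B) := by
      exact ((H8.G_integrable ha).comp_sub_left x).mul_const B
    refine (norm_integral_le_of_norm_le h9.integrableOn ?_).trans ?_
    · filter_upwards [ae_restrict_mem g.hW] with y hy
      exact h1 x hx y hy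
    · have h10 : ∫ y in W, G a (x - y) * B ≤ ∫ y, G a (x - y) * B := by
        refine setIntegral_le_integral h9 ?_
        exact Eventually.of_forall fun y => mul_nonneg ((H8.G_pos ha _).le) hB0
      refine h10.trans ?_
      rw [integral_mul_const, integral_sub_left_eq_self (fun z => G a z) volume x,
        H8.G_integral ha, one_mul]
  rw [← Real.norm_eq_abs]
  unfold TTG
  refine (norm_setIntegral_le_of_norm_le_const hWf h8).trans (le_of_eq ?_)
  rw [hB]
  simp only [Measure.real, hv]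
  ring

/-- Claim B -/
lemma claimB (hASA : AsaStatement) (hHYE : H60K.HyeStatement) (g : Geo4 u h O E C W l δ R)
    (hbd : ∀ t : ℝ, 0 < t → ∃ M : ℝ, ∀ a : ℝ, 0 < a → a ≤ t / 2 →
      |2 * TTG u h O E C W a t| ≤ M) {ε : ℝ} (hε : 0 < ε) :
    ∃ (K : ℕ) (D : ℝ) (p : ℕ), 2 ≤ K ∧ l ^ 2 ≤ δ ^ 2 * K ∧ 0 ≤ D ∧
      ∀ a t : ℝ, 0 < a → K * a ≤ t →
      |2 * TTG u h O E C W a t - a / t * (Vt u h (O ∪ {2, 3}) E t).toReal|
        ≤ Q D p ((1 - ε) * l ^ 2) t := by
  have hδ := g.hδ
  have hl := g.hl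
  obtain ⟨K0, hK0⟩ := exists_nat_ge (l ^ 2 / δ ^ 2)
  set K : ℕ := K0 + 2 with hK
  have hK2 : 2 ≤ K := by omega
  have hKl : l ^ 2 ≤ δ ^ 2 * K := by
    rw [div_le_iff₀ (by positivity)] at hK0
    rw [hK]
    push_cast
    linarith only [hK0, sq_nonneg δ]
  have hKR : (0 : ℝ) < K := by positivity
  have hK2R : (2 : ℝ) ≤ K := by exact_mod_cast hK2
  obtain ⟨C1, p1, hC1, h1⟩ := hASA u h O E C W l δ R ε g hε (K + 1) (by omega)
  obtain ⟨C2, p2, hC2, h2⟩ := hASA u h O E C W l δ R ε g hε (K + 2) (by omega)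
  set m : ℝ := (1 - ε) * l ^ 2 with hm
  refine ⟨K, 3 * (C1 + C2) + (C1 + (K + 1) * (3 * (C1 + C2))), p1 + p2, hK2, hKl, by positivity,
    fun a t ha hat => ?_⟩
  have ht : 0 < t := lt_of_lt_of_le (by positivity) hat
  set T : ℝ → ℝ := fun a => 2 * TTG u h O E C W a t with hT
  set V : ℝ := (Vt u h (O ∪ {2, 3}) E t).toReal with hV
  set q1 : ℝ := Q C1 (p1 + p2) m t with hq1
  set q2 : ℝ := Q C2 (p1 + p2) m t with hq2
  have hmesh : ∀ r : ℝ, 0 < r → r ≤ t / K → r * l ^ 2 ≤ δ ^ 2 * t := by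
    intro r hr hr'
    have h3 : r * K ≤ t := by rwa [le_div_iff₀ hKR] at hr'
    calc r * l ^ 2 ≤ r * (δ ^ 2 * K) := by gcongr
      _ = δ ^ 2 * (r * K) := by ring
      _ ≤ δ ^ 2 * t := by gcongr
  -- `K + 1` blocks
  have e1 : ∀ s r : ℝ, 0 < s → s ≤ t / K → 0 < r → r ≤ t / K → s + K * r = t →
      |V - (T s + K * T r)| ≤ q1 := by
    intro s r hs hs' hr hr' hsum
    have hS : ∑ j : Fin (K + 1), (Fin.cons s (fun _ : Fin K => r) : Fin (K + 1) → ℝ) j = t := by
      rw [Fin.sum_univ_succ]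
      simp only [Fin.cons_zero, Fin.cons_succ, Finset.sum_const, Finset.card_univ,
        Fintype.card_fin, nsmul_eq_mul]
      exact hsum
    have h3 := h1 (Fin.cons s (fun _ : Fin K => r) : Fin (K + 1) → ℝ) (by
      intro j
      refine Fin.cases ?_ (fun i => ?_) j
      · simpa using hs
      · simpa using hr) (by
      intro j
      rw [hS]
      refine Fin.cases ?_ (fun i => ?_) j
      · simpa using hmesh s hs hs'
      · simpa using hmesh r hr hr')
    rw [hS, Fin.sum_univ_succ] at h3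
    simp only [Fin.cons_zero, Fin.cons_succ, Finset.sum_const, Finset.card_univ,
      Fintype.card_fin, nsmul_eq_mul] at h3
    have h4 : 2 * (TTG u h O E C W s t + K * TTG u h O E C W r t) = T s + K * T r := by
      simp only [hT]
      ring
    rw [h4] at h3
    exact h3.trans (Q_le (m := m) ht le_rfl hC1 (by omega))
  -- `K + 2` blocks
  have e2 : ∀ s s' r : ℝ, 0 < s → s ≤ t / K → 0 < s' → s' ≤ t / K → 0 < r → r ≤ t / K →
      s + (s' + K * r) = t → |V - (T s + (T s' + K * T r))| ≤ q2 := by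
    intro s s' r hs hs' hs2 hs2' hr hr' hsum
    set τ : Fin (K + 2) → ℝ := Fin.cons s (Fin.cons s' (fun _ : Fin K => r) : Fin (K + 1) → ℝ)
      with hτ
    have hS : ∑ j : Fin (K + 2), τ j = t := by
      rw [Fin.sum_univ_succ, Fin.sum_univ_succ]
      simp only [hτ, Fin.cons_zero, Fin.cons_succ, Finset.sum_const, Finset.card_univ,
        Fintype.card_fin, nsmul_eq_mul]
      exact hsum
    have h3 := h2 τ (by
      intro j
      refine Fin.cases ?_ (fun i => ?_) j
      · simpa [hτ] using hs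
      · rw [hτ, Fin.cons_succ]
        refine Fin.cases ?_ (fun i => ?_) i
        · simpa using hs2
        · simpa using hr) (by
      intro j
      rw [hS]
      refine Fin.cases ?_ (fun i => ?_) j
      · simpa [hτ] using hmesh s hs hs'
      · rw [hτ, Fin.cons_succ]
        refine Fin.cases ?_ (fun i => ?_) i
        · simpa using hmesh s' hs2 hs2'
        · simpa using hmesh r hr hr')
    rw [hS, Fin.sum_univ_succ, Fin.sum_univ_succ] at h3
    simp only [hτ, Fin.cons_zero, Fin.cons_succ, Finset.sum_const, Finset.card_univ,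
      Fintype.card_fin, nsmul_eq_mul] at h3
    have h4 : 2 * (TTG u h O E C W s t + (TTG u h O E C W s' t + K * TTG u h O E C W r t))
        = T s + (T s' + K * T r) := by
      simp only [hT]
      ring
    rw [h4] at h3
    exact h3.trans (Q_le (m := m) ht le_rfl hC2 (by omega))
  -- almost additivity
  have e3 : ∀ a b : ℝ, 0 < a → 0 < b → a + b ≤ t / K → |T (a + b) - T a - T b| ≤ q1 + q2 := by
    intro a b ha hb hab
    have hr0 : a + b < t := by
      have : t / K ≤ t / 2 := by gcongr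
      linarith
    have hr : 0 < (t - (a + b)) / K := div_pos (by linarith) hKR
    have hr' : (t - (a + b)) / K ≤ t / K := by
      gcongr
      linarith
    have hKr : K * ((t - (a + b)) / K) = t - (a + b) := by field_simp
    have f1 := e1 (a + b) ((t - (a + b)) / K) (by linarith) hab hr hr' (by rw [hKr]; ring)
    have f2 := e2 a b ((t - (a + b)) / K) ha (by linarith) hb (by linarith) hr hr'
      (by rw [hKr]; ring)
    rw [abs_le] at f1 f2 ⊢
    constructor <;> linarith only [f1.1, f1.2, f2.1, f2.2]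
  obtain ⟨M, hM⟩ := hbd t ht
  have e4 := hHYE T (t / K) (q1 + q2) M (by positivity) (fun a ha ha' => hM a ha (by
    have : t / K ≤ t / 2 := by gcongr
    linarith)) e3
  -- comparison with the total mass
  have hr : 0 < t / (K + 1) := by positivity
  have hr' : t / (K + 1) ≤ t / K := by gcongr; linarith
  have e5 := e1 (t / (K + 1)) (t / (K + 1)) hr hr' hr hr' (by field_simp; ring)
  have e6 := e4 (t / (K + 1)) hr hr'
  have e7 := e4 a ha (by rw [le_div_iff₀ hKR]; linarith)
  have hq0 : 0 ≤ q1 + q2 := (abs_nonneg _).trans (e3 (t / K / 2) (t / K / 2) (by positivity)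
    (by positivity) (by linarith))
  have h8 : t / (K + 1) / (t / K) = K / (K + 1) := by field_simp
  have h9 : a / (t / K) = a / t * K := by field_simp
  rw [h8] at e6
  rw [h9] at e7
  set X : ℝ := T (t / K) with hX
  have e8 : |V - K * X| ≤ q1 + (K + 1) * (3 * (q1 + q2)) := by
    have f1 : V - K * X = (V - (T (t / (K + 1)) + K * T (t / (K + 1))))
        + (K + 1) * (T (t / (K + 1)) - K / (K + 1) * X) := by
      field_simp
      ring
    rw [f1]
    refine (abs_add_le _ _).trans ?_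
    rw [abs_mul, abs_of_pos (by positivity : (0 : ℝ) < K + 1)]
    gcongr
  have hat1 : a / t ≤ 1 := by
    rw [div_le_one ht]
    nlinarith only [hat, hK2R, ha]
  have hat0 : 0 ≤ a / t := by positivity
  have e9 : |T a - a / t * V| ≤ 3 * (q1 + q2) + (q1 + (K + 1) * (3 * (q1 + q2))) := by
    have f1 : T a - a / t * V = (T a - a / t * K * X) - a / t * (V - K * X) := by ring
    rw [f1]
    refine (abs_sub _ _).trans ?_
    rw [abs_mul, abs_of_nonneg hat0]
    refine add_le_add e7 ?_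
    calc a / t * |V - K * X| ≤ 1 * |V - K * X| := by gcongr
      _ ≤ _ := by rw [one_mul]; exact e8
  refine e9.trans (le_of_eq ?_)
  rw [hq1, hq2]
  simp only [Q]
  ring

/-- bound of the total mass -/
lemma V_bound (g : Geo4 u h O E C W l δ R) :
    ∃ (D : ℝ) (p : ℕ), 0 ≤ D ∧ ∀ t : ℝ, 0 < t →
      |(Vt u h (O ∪ {2, 3}) E t).toReal|
        ≤ Q D p ((1 - 1 / 2) * (min l (1 / R)) ^ 2) t := by
  have hu := g.hu
  have hδ := g.hδ
  have hl := g.hl
  have hR := g.hR
  set l1 : ℝ := min l (1 / R) with hl1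
  have hl10 : 0 < l1 := by positivity
  obtain ⟨K0, hK0⟩ := exists_nat_ge (l1 ^ 2 / δ ^ 2)
  set K : ℕ := K0 + 1 with hK
  have hKl : l1 ^ 2 ≤ δ ^ 2 * K := by
    rw [div_le_iff₀ (by positivity)] at hK0
    rw [hK]
    push_cast
    linarith only [hK0, sq_nonneg δ]
  have hKR : (0 : ℝ) < K := by positivity
  have : NeZero K := ⟨by omega⟩
  obtain ⟨D, p, h1⟩ := ldm u h hu K (fun _ A => Vis (O ∪ {2, 3}) E A) δ
      l1 R (1 / 2) (fun A => MeasurableSet.const _) hδ hl10 hR (by norm_num)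
      (fun x A hS hC _ => (min_le_right _ _).trans (g.loc K x A hS hC).2)
      (fun x A hS hC => (g.loc K x A hS hC).1)
  refine ⟨max D 0, p, le_max_right _ _, fun t ht => ?_⟩
  have hsum : ∑ _j : Fin K, t / K = t := by
    simp only [Finset.sum_const, Finset.card_univ, Fintype.card_fin, nsmul_eq_mul]
    field_simp
  have h2 := h1 (fun _ => t / K) (fun _ => by positivity) (fun _ => by
    rw [hsum, div_mul_eq_mul_div, div_le_iff₀ hKR]
    calc t * l1 ^ 2 ≤ t * (δ ^ 2 * K) := by gcongr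
      _ = δ ^ 2 * t * K := by ring)
  rw [hsum] at h2
  have h3 := blv u h K (fun _ => t / K) (fun _ => by positivity) (O ∪ {2, 3}) E
  rw [hsum] at h3
  rw [abs_of_nonneg ENNReal.toReal_nonneg]
  have h4 : Vt u h (O ∪ {2, 3}) E t = Ms u h (fun _ : Fin K => t / K)
      (fun _ A => Vis (O ∪ {2, 3}) E A) := h3
  rw [h4]
  refine ENNReal.toReal_le_of_le_ofReal (Q_nonneg ht (le_max_right _ _)) (h2.trans ?_)
  refine ENNReal.ofReal_le_ofReal ?_
  exact Q_le (m := (1 - 1 / 2) * l1 ^ 2) ht (le_max_left _ _) (le_max_right _ _) le_rfl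

/-- module ASM -/
theorem asm (hASA : AsaStatement) (hHYE : H60K.HyeStatement) (hLPS : H60K.LpsStatement) :
    AsmStatement := by
  intro u h O E C W l δ R ε g hε
  have hu := g.hu
  have hδ := g.hδ
  have hl := g.hl
  have hR := g.hR
  set l1 : ℝ := min l (1 / R) with hl1
  have hl10 : 0 < l1 := by positivity
  -- constants
  set l' : ℝ := max (l - ε / 2) (l / 2) with hl'
  have hl'0 : 0 < l' := lt_of_lt_of_le (by positivity) (le_max_right _ _)
  have hl'l : l' < l := max_lt (by linarith) (by linarith)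
  set m : ℝ := ((l + l') / 2) ^ 2 with hm
  have hml : m < l ^ 2 := by
    rw [hm]
    have : (l + l') / 2 < l := by linarith
    gcongr
  have hml' : l' ^ 2 < m := by
    rw [hm]
    have : l' < (l + l') / 2 := by linarith only [hl'l]
    gcongr
  have hε' : 0 < 1 - m / l ^ 2 := by
    rw [sub_pos, div_lt_one (by positivity)]
    exact hml
  obtain ⟨CT, hCT, hT⟩ := TTG_bound g
  have hT2 : ∀ a t : ℝ, 0 < a → a < t →
      |2 * TTG u h O E C W a t| ≤ 2 * CT * (Real.exp (-(δ ^ 2 / (4 * (t - a)))) / (t - a)) := by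
    intro a t ha hat
    rw [abs_mul, abs_of_pos (by norm_num : (0 : ℝ) < 2), mul_assoc]
    have := hT a t ha hat
    linarith only [this]
  have hbd : ∀ t : ℝ, 0 < t → ∃ M : ℝ, ∀ a : ℝ, 0 < a → a ≤ t / 2 →
      |2 * TTG u h O E C W a t| ≤ M := by
    intro t ht
    refine ⟨2 * CT * (1 / (t / 2)), fun a ha hat => (hT2 a t ha (by linarith)).trans ?_⟩
    have h1 : t / 2 ≤ t - a := by linarith
    have h2 : Real.exp (-(δ ^ 2 / (4 * (t - a)))) ≤ 1 := by
      rw [Real.exp_le_one_iff, neg_nonpos]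
      have : 0 < t - a := by linarith
      positivity
    gcongr
  obtain ⟨K, C1, p1, hK2, -, hC1, h1⟩ := claimB hASA hHYE g hbd hε'
  obtain ⟨C2, p2, hC2, h2⟩ := V_bound g
  have hm1 : (1 - (1 - m / l ^ 2)) * l ^ 2 = m := by field_simp; ring
  rw [hm1] at h1
  -- the length used for the crude bounds
  set l0 : ℝ := min (δ / 2) (l1 / 2) with hl0
  have hl00 : 0 < l0 := by positivity
  have hl0δ : l0 ^ 2 ≤ δ ^ 2 / 4 := by
    have h3 : l0 ≤ δ / 2 := min_le_left _ _
    calc l0 ^ 2 ≤ (δ / 2) ^ 2 := by gcongr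
      _ = δ ^ 2 / 4 := by ring
  have hl0l : l0 ^ 2 ≤ l1 ^ 2 / 4 := by
    have h3 : l0 ≤ l1 / 2 := min_le_right _ _
    calc l0 ^ 2 ≤ (l1 / 2) ^ 2 := by gcongr
      _ = l1 ^ 2 / 4 := by ring
  set D : ℝ := C1 * (4 / (m - l' ^ 2)) + C2 * (4 / ((1 - 1 / 2) * l1 ^ 2 - l0 ^ 2))
    + 2 * CT * (4 / (δ ^ 2 - l0 ^ 2)) with hD
  have hd1 : 0 < m - l' ^ 2 := by linarith only [hml']
  have hl12 : 0 < l1 ^ 2 := by positivity
  have hd2 : 0 < (1 - 1 / 2) * l1 ^ 2 - l0 ^ 2 := by linarith only [hl0l, hl12]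
  have hδ2 : 0 < δ ^ 2 := by positivity
  have hd3 : 0 < δ ^ 2 - l0 ^ 2 := by linarith only [hl0δ, hδ2]
  have hP1 : 0 ≤ C1 * (4 / (m - l' ^ 2)) := by positivity
  have hP2 : 0 ≤ C2 * (4 / ((1 - 1 / 2) * l1 ^ 2 - l0 ^ 2)) := by positivity
  have hP3 : 0 ≤ 2 * CT * (4 / (δ ^ 2 - l0 ^ 2)) := by positivity
  set p : ℕ := p1 + p2 with hp
  -- measurable versions
  set V : ℝ → ℝ := fun t => (Vt u h (O ∪ {2, 3}) E t).toReal with hV
  set T : ℝ → ℝ → ℝ := fun a t => 2 * TTG u h O E C W a t with hTd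
  have hVm : Measurable V := (measurable_Vt _ _).ennreal_toReal
  have hTm : Measurable (Function.uncurry T) := by
    have h3 := (measurable_TTG (u := u) (h := h) (W := W) O E g.hC).const_mul 2
    exact h3
  have hone : ∀ (t : ℝ) (q : ℕ), 0 < t → q ≤ p → (1 + t) ^ q ≤ (1 + t) ^ p := fun t q ht hq =>
    pow_le_pow_right₀ (by linarith only [ht]) hq
  obtain ⟨c0, hc0, h3⟩ := hLPS V T K p D l' l0 (ε / 2) (by omega) hl'0 hl00 (by positivity)
    hVm hTm (fun a t ha hat => by
      have ht : 0 < t := lt_of_lt_of_le (by positivity) hat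
      refine (h1 a t ha hat).trans ((Q_absorb hC1 hml' ht).trans ?_)
      have h4 := hone t p1 ht (by omega)
      have h5 : C1 * (4 / (m - l' ^ 2)) ≤ D := by rw [hD]; linarith only [hP2, hP3]
      gcongr) (fun t ht => by
      refine (h2 t ht).trans ((Q_absorb (m' := l0 ^ 2) hC2 (by linarith only [hd2]) ht).trans ?_)
      have h4 := hone t p2 ht (by omega)
      have h5 : C2 * (4 / ((1 - 1 / 2) * l1 ^ 2 - l0 ^ 2)) ≤ D := by rw [hD]; linarith only [hP1, hP3]
      gcongr) (fun a t ha hat => by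
      have ht : 0 < t := ha.trans hat
      have hs : 0 < t - a := by linarith only [hat]
      refine (hT2 a t ha hat).trans ?_
      have h5 := absorb (m := δ ^ 2) (m' := l0 ^ 2) (by linarith only [hl0δ, hδ2]) hs
      have h6 : Real.exp (-(l0 ^ 2 / (4 * (t - a)))) ≤ Real.exp (-(l0 ^ 2 / (4 * t))) := by
        have h7 : t - a ≤ t := by linarith only [ha]
        gcongr
      have h8 := hone t 0 ht (by omega)
      rw [pow_zero] at h8
      have h9 : 2 * CT * (4 / (δ ^ 2 - l0 ^ 2)) ≤ D := by rw [hD]; linarith only [hP1, hP2]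
      calc 2 * CT * (Real.exp (-(δ ^ 2 / (4 * (t - a)))) / (t - a))
          ≤ 2 * CT * (4 / (δ ^ 2 - l0 ^ 2) * Real.exp (-(l0 ^ 2 / (4 * (t - a))))) := by gcongr
        _ ≤ 2 * CT * (4 / (δ ^ 2 - l0 ^ 2) * Real.exp (-(l0 ^ 2 / (4 * t)))) := by gcongr
        _ = 2 * CT * (4 / (δ ^ 2 - l0 ^ 2)) * 1 * Real.exp (-(l0 ^ 2 / (4 * t))) := by ring
        _ ≤ D * (1 + t) ^ p * Real.exp (-(l0 ^ 2 / (4 * t))) := by
          gcongr)
  refine ⟨c0, hc0, fun c hc hcc => ?_⟩
  obtain ⟨C', κ0, hκ0, h4⟩ := h3 c hc hcc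
  refine ⟨|C'|, κ0, hκ0, fun κ hκ => ?_⟩
  have hκ' : 0 < κ := lt_of_lt_of_le hκ0 hκ
  have h5 := h4 κ hκ
  have e2 : κ / c * ∫ t in Set.Ioi (c / κ), Real.exp (-(κ ^ 2 * t)) * T (c / κ) t
      = 2 * (κ / c * ∫ t in Set.Ioi (c / κ), Real.exp (-(κ ^ 2 * t)) *
          TTG u h O E C W (c / κ) t) := by
    have e3 : ∀ t, Real.exp (-(κ ^ 2 * t)) * T (c / κ) t
        = 2 * (Real.exp (-(κ ^ 2 * t)) * TTG u h O E C W (c / κ) t) := by
      intro t
      simp only [hTd]
      ring
    simp only [e3]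
    rw [integral_const_mul]
    ring
  rw [e2] at h5
  refine h5.trans ?_
  have h6 : l - ε ≤ l' - ε / 2 := by
    have := le_max_left (l - ε / 2) (l / 2)
    linarith only [this]
  calc C' * Real.exp (-(κ * (l' - ε / 2))) ≤ |C'| * Real.exp (-(κ * (l' - ε / 2))) := by
        gcongr
        exact le_abs_self _
    _ ≤ |C'| * Real.exp (-(κ * (l - ε))) := by gcongr

end Pool.Agent.XQ.K4.H60
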